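import Pool.Agent.Run7.h538.TP.Stm

set_option autoImplicit false

open Finset Matrix

namespace Run7.h538.TP

theorem flip_apply {V : Type} [DecidableEq V] (C : Matrix V V ℝ) (x y u v : V) :
    flip C x y u v = if (u = x ∧ v = y) ∨ (u = y ∧ v = x) then -C u v else C u v := rfl

theorem flip_flip {V : Type} [DecidableEq V] (C : Matrix V V ℝ) (x y : V) :
    flip (flip C x y) x y = C := by
  ext u v
  rw [flip_apply, flip_apply]
  by_cases h : (u = x ∧ v = y) ∨ (u = y ∧ v = x)
  · simp [h]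
  · simp [h]

theorem flip_symm {V : Type} [DecidableEq V] {C : Matrix V V ℝ} (h : C.IsSymm) (x y : V) :
    (flip C x y).IsSymm := by
  ext u v
  rw [Matrix.transpose_apply, flip_apply, flip_apply, h.apply]
  have : ((v = x ∧ u = y) ∨ (v = y ∧ u = x)) ↔ ((u = x ∧ v = y) ∨ (u = y ∧ v = x)) := by tauto
  simp only [this]

theorem flip_inS {V : Type} [DecidableEq V] {G : SimpleGraph V} {C : Matrix V V ℝ}
    (h : InS G C) (x y : V) : InS G (flip C x y) := by
  refine ⟨flip_symm h.1 x y, fun i j hij => ?_⟩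
  rw [← h.2 i j hij, flip_apply]
  split_ifs <;> simp

theorem t_END (hEXB : S_EXB) (hSIG : S_SIG) (hINV : S_INV) (hCOL : S_COL) (hDD : S_DD) :
    S_END := by
  intro m n hn hm hall
  classical
  obtain ⟨B, μ, hB, hμ, hdbl, htail⟩ := hEXB m n hn hm
  have h3 : 3 ≤ m := by omega
  obtain ⟨c0, hc0⟩ : ∃ c : Fin m ⊕ Fin n, c = .inl ⟨0, by omega⟩ := ⟨_, rfl⟩
  obtain ⟨c1, hc1⟩ : ∃ c : Fin m ⊕ Fin n, c = .inl ⟨1, by omega⟩ := ⟨_, rfl⟩
  obtain ⟨A, hA⟩ : ∃ A, A = flip B c0 c1 := ⟨_, rfl⟩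
  have hAS : InS (tadpole m n) A := hA ▸ flip_inS hB c0 c1
  have hAt : A.toBlocks₂₂ = B.toBlocks₂₂ := by
    ext l l'
    rw [hA, hc0, hc1]
    simp [Matrix.toBlocks₂₂, flip_apply]
  have hinj : ∀ k v, A *ᵥ v = μ k • v → v = 0 := by
    intro k v h
    rw [hA, hc0, hc1] at h
    exact hINV m n h3 B (μ k) v hB (hdbl k) h
  have hdet : ∀ k, IsUnit (A - μ k • (1 : Matrix _ _ ℝ)).det := by
    intro k
    rw [isUnit_iff_ne_zero]
    intro h
    obtain ⟨v, hv, hv2⟩ := Matrix.exists_mulVec_eq_zero_iff.2 h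
    apply hv
    apply hinj k
    rw [Matrix.sub_mulVec, Matrix.smul_mulVec, Matrix.one_mulVec, sub_eq_zero] at hv2
    exact hv2
  obtain ⟨G, hG⟩ : ∃ G : Fin (n + 2) → Matrix (Fin m ⊕ Fin n) (Fin m ⊕ Fin n) ℝ,
      ∀ k, G k = (A - μ k • (1 : Matrix _ _ ℝ))⁻¹ := ⟨_, fun k => rfl⟩
  have hG1 : ∀ k, (A - μ k • (1 : Matrix _ _ ℝ)) * G k = 1 := fun k => by
    rw [hG]; exact Matrix.mul_nonsing_inv _ (hdet k)
  have hG2 : ∀ k, G k * (A - μ k • (1 : Matrix _ _ ℝ)) = 1 := fun k => by
    rw [hG]; exact Matrix.nonsing_inv_mul _ (hdet k)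
  have hGs : ∀ k, (G k).IsSymm := by
    intro k
    rw [Matrix.IsSymm, hG, Matrix.transpose_nonsing_inv, Matrix.transpose_sub,
      Matrix.transpose_smul, Matrix.transpose_one, hAS.1.eq]
  -- columns
  have hcol : ∀ k (x : Fin m ⊕ Fin n) (g : Fin m ⊕ Fin n → ℝ),
      A *ᵥ g = μ k • g + Pi.single x 1 → ∀ v, G k v x = g v := by
    intro k x g h v
    have h1 : (A - μ k • (1 : Matrix _ _ ℝ)) *ᵥ g = Pi.single x 1 := by
      rw [Matrix.sub_mulVec, Matrix.smul_mulVec, Matrix.one_mulVec, h]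
      abel
    have h2 : G k *ᵥ ((A - μ k • (1 : Matrix _ _ ℝ)) *ᵥ g) = g := by
      rw [Matrix.mulVec_mulVec, hG2, Matrix.one_mulVec]
    rw [h1, Matrix.mulVec_single_one] at h2
    exact congrFun h2 v
  have hne : ∀ i : Fin m, i ≠ ⟨(i.val + 1) % m, Nat.mod_lt _ (by omega)⟩ := by
    intro i h
    have h1 := congrArg Fin.val h
    simp only at h1
    have h2 := i.2
    by_cases h4 : i.val + 1 = m
    · rw [h4, Nat.mod_self] at h1; omega
    · rw [Nat.mod_eq_of_lt (by omega)] at h1; omega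
  have hadj : ∀ i : Fin m, (tadpole m n).Adj (.inl i)
      (.inl ⟨(i.val + 1) % m, Nat.mod_lt _ (by omega)⟩) := by
    intro i
    rw [tadpole, SimpleGraph.fromRel_adj]
    refine ⟨fun h => hne i (Sum.inl_injective h), Or.inl rfl⟩
  have hcyc : ∀ k (i : Fin m), G k (.inl i) (.inl i) = 0 ∧
      2 * A (.inl i) (.inl ⟨(i.val + 1) % m, Nat.mod_lt _ (by omega)⟩) *
        G k (.inl ⟨(i.val + 1) % m, Nat.mod_lt _ (by omega)⟩) (.inl i) = 1 := by
    intro k i
    have hs := hSIG m n h3 B (μ k) hB (hdbl k) i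
    rw [← hc0, ← hc1, ← hA] at hs
    have hne' : (Sum.inl i : Fin m ⊕ Fin n) ≠
        .inl ⟨(i.val + 1) % m, Nat.mod_lt _ (by omega)⟩ := fun h => hne i (Sum.inl_injective h)
    obtain ⟨g, -, hg1, hg2, hg3, -⟩ := hCOL _ A (μ k) _ _ hAS.1 hne'
      ((hAS.2 _ _ hne').2 (hadj i)) (hinj k) hs
    have := hcol k _ g hg1
    rw [this, this]
    exact ⟨hg2, hg3⟩
  -- the column at c0
  have hB0 : ∀ k, ∃ g : Fin m ⊕ Fin n → ℝ, g ≠ 0 ∧ (∀ v, G k v c0 = g v) ∧ g c0 = 0 ∧
      B *ᵥ g = μ k • g ∧ A *ᵥ g = μ k • g + Pi.single c0 1 := by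
    intro k
    have h01 : c0 ≠ c1 := by
      rw [hc0, hc1]
      intro h
      have := congrArg Fin.val (Sum.inl_injective h)
      simp at this
    have hadj0 : (tadpole m n).Adj c0 c1 := by
      rw [tadpole, SimpleGraph.fromRel_adj]
      refine ⟨h01, Or.inl ?_⟩
      rw [hc0, hc1]
      show (0 + 1) % m = 1
      rw [Nat.mod_eq_of_lt (by omega)]
    have hfl : flip A c0 c1 = B := by rw [hA, flip_flip]
    obtain ⟨g, hg0, hg1, hg2, hg3, hg4⟩ := hCOL _ A (μ k) c0 c1 hAS.1 h01
      ((hAS.2 _ _ h01).2 hadj0) (hinj k) (hfl ▸ hdbl k)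
    rw [hfl] at hg4
    exact ⟨g, hg0, hcol k _ g hg1, hg2, hg4, hg1⟩
  choose g hg0 hgG hgc hgB hgA using hB0
  -- entries of A between the tail and the cycle
  have hAtc : ∀ (l : Fin n) (j : Fin m), Sum.inl j ≠ c0 → A (.inr l) (.inl j) = 0 := by
    intro l j hj
    by_contra hcon
    have h1 := (hAS.2 _ _ (by simp)).1 hcon
    rw [tadpole, SimpleGraph.fromRel_adj] at h1
    rcases h1.2 with h | h
    · exact h
    · apply hj
      rw [hc0]
      congr 1
      exact Fin.ext h.1
  have hsum : ∀ (l : Fin n) (w : Fin m ⊕ Fin n → ℝ), w c0 = 0 →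
      (A *ᵥ w) (.inr l) = (A.toBlocks₂₂ *ᵥ fun p => w (.inr p)) l := by
    intro l w hw
    rw [Matrix.mulVec, dotProduct, Fintype.sum_sum_type]
    have : ∑ j : Fin m, A (.inr l) (.inl j) * w (.inl j) = 0 := by
      refine Finset.sum_eq_zero fun j _ => ?_
      by_cases hj : Sum.inl j = c0
      · rw [hj, hw, mul_zero]
      · rw [hAtc l j hj, zero_mul]
    rw [this, zero_add]
    rfl
  have hgt : ∀ k (p : Fin n), g k (.inr p) = 0 := by
    intro k
    have h1 : B.toBlocks₂₂ *ᵥ (fun p => g k (.inr p)) = μ k • fun p => g k (.inr p) := by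
      rw [← hAt]
      funext l
      rw [← hsum l (g k) (hgc k), hgA k, hc0]
      simp
    have h2 := htail k _ h1
    exact fun p => congrFun h2 p
  have hGct : ∀ k (p : Fin n), G k c0 (.inr p) = 0 := by
    intro k p
    rw [(hGs k).apply, hgG k, hgt]
  -- the tail block
  have hR : ∀ k, (A.toBlocks₂₂ - μ k • (1 : Matrix (Fin n) (Fin n) ℝ)) * (G k).toBlocks₂₂ = 1 := by
    intro k
    ext l p
    have h1 := congrFun (congrFun (hG1 k) (Sum.inr l)) (Sum.inr p)
    rw [Matrix.sub_mul, Matrix.sub_apply, Matrix.smul_mul, Matrix.one_mul, Matrix.smul_apply] at h1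
    have h2 : (A * G k) (.inr l) (.inr p) = (A.toBlocks₂₂ * (G k).toBlocks₂₂) l p := by
      have := hsum l (fun v => G k v (.inr p)) (hGct k p)
      exact this
    rw [h2] at h1
    rw [Matrix.sub_mul, Matrix.sub_apply, Matrix.smul_mul, Matrix.one_mul, Matrix.smul_apply]
    have h3 : (1 : Matrix (Fin m ⊕ Fin n) (Fin m ⊕ Fin n) ℝ) (.inr l) (.inr p) =
        (1 : Matrix (Fin n) (Fin n) ℝ) l p := by
      simp [Matrix.one_apply]
    rw [← h3]
    exact h1
  have hTs : (A.toBlocks₂₂).IsSymm := by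
    ext l p
    exact hAS.1.apply (.inr l) (.inr p)
  obtain ⟨d, hd0, hd1, hd2⟩ := hDD n A.toBlocks₂₂ μ (fun k => (G k).toBlocks₂₂) hTs hR
  -- the matrix X
  have hX := hall A hAS (∑ k, d k • G k) ?_ ?_ ?_ ?_
  · -- contradiction
    apply hd0
    have h1 : ∑ k, d k • g k = 0 := by
      funext v
      have := congrFun (congrFun hX v) c0
      rw [Matrix.sum_apply] at this
      simp only [Matrix.smul_apply, smul_eq_mul, hgG] at this
      simpa using this
    have hli : LinearIndependent ℝ g := by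
      refine Module.End.eigenvectors_linearIndependent' (Matrix.toLin' B) μ hμ g fun k => ?_
      refine ⟨?_, hg0 k⟩
      rw [Module.End.mem_eigenspace_iff, Matrix.toLin'_apply]
      exact hgB k
    funext k
    exact Fintype.linearIndependent_iff.1 hli d h1 k
  · -- symmetric
    rw [Matrix.IsSymm, Matrix.transpose_sum]
    refine Finset.sum_congr rfl fun k _ => ?_
    rw [Matrix.transpose_smul, (hGs k).eq]
  · -- A ∘ X = 0
    have hXt : ∀ l p : Fin n, (∑ k, d k • G k) (.inr l) (.inr p) = 0 := by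
      intro l p
      have := congrFun (congrFun hd2 l) p
      rw [Matrix.sum_apply] at this ⊢
      exact this
    have hXs : ∀ u v, (∑ k, d k • G k) u v = (∑ k, d k • G k) v u := by
      intro u v
      rw [Matrix.sum_apply, Matrix.sum_apply]
      refine Finset.sum_congr rfl fun k _ => ?_
      rw [Matrix.smul_apply, Matrix.smul_apply, (hGs k).apply]
    have hXc : ∀ p : Fin n, (∑ k, d k • G k) c0 (.inr p) = 0 := by
      intro p
      rw [Matrix.sum_apply]
      refine Finset.sum_eq_zero fun k _ => ?_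
      rw [Matrix.smul_apply, hGct, smul_zero]
    have hXe : ∀ i : Fin m, A (.inl i) (.inl ⟨(i.val + 1) % m, Nat.mod_lt _ (by omega)⟩) *
        (∑ k, d k • G k) (.inl i) (.inl ⟨(i.val + 1) % m, Nat.mod_lt _ (by omega)⟩) = 0 := by
      intro i
      rw [hXs, Matrix.sum_apply, Finset.mul_sum]
      have : ∀ k, A (.inl i) (.inl ⟨(i.val + 1) % m, Nat.mod_lt _ (by omega)⟩) *
          (d k • G k) (.inl ⟨(i.val + 1) % m, Nat.mod_lt _ (by omega)⟩) (.inl i) = d k / 2 := by
        intro k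
        rw [Matrix.smul_apply, smul_eq_mul]
        linear_combination (d k / 2) * (hcyc k i).2
      rw [Finset.sum_congr rfl fun k _ => this k, ← Finset.sum_div, hd1, zero_div]
    intro u v
    by_cases huv : u = v
    · subst huv
      have : (∑ k, d k • G k) u u = 0 := by
        rcases u with i | l
        · rw [Matrix.sum_apply]
          refine Finset.sum_eq_zero fun k _ => ?_
          rw [Matrix.smul_apply, (hcyc k i).1, smul_zero]
        · exact hXt l l
      rw [this, mul_zero]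
    by_cases hAz : A u v = 0
    · rw [hAz, zero_mul]
    have hadj' := (hAS.2 u v huv).1 hAz
    rw [tadpole, SimpleGraph.fromRel_adj] at hadj'
    rcases u with i | l <;> rcases v with j | p
    · rcases hadj'.2 with h | h
      · have : j = ⟨(i.val + 1) % m, Nat.mod_lt _ (by omega)⟩ := Fin.ext h.symm
        rw [this]
        exact hXe i
      · have : i = ⟨(j.val + 1) % m, Nat.mod_lt _ (by omega)⟩ := Fin.ext h.symm
        rw [this, hAS.1.apply, hXs]
        exact hXe j
    · rcases hadj'.2 with h | h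
      · have : (Sum.inl i : Fin m ⊕ Fin n) = c0 := by
          rw [hc0]; congr 1; exact Fin.ext h.1
        rw [this, hXc, mul_zero]
      · exact absurd h id
    · rcases hadj'.2 with h | h
      · exact absurd h id
      · have : (Sum.inl j : Fin m ⊕ Fin n) = c0 := by
          rw [hc0]; congr 1; exact Fin.ext h.1
        rw [this, hXs, hXc, mul_zero]
    · rw [hXt, mul_zero]
  · -- diagonal
    intro u
    rcases u with i | l
    · rw [Matrix.sum_apply]
      refine Finset.sum_eq_zero fun k _ => ?_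
      rw [Matrix.smul_apply, (hcyc k i).1, smul_zero]
    · have := congrFun (congrFun hd2 l) l
      rw [Matrix.sum_apply] at this ⊢
      exact this
  · -- commutes
    rw [Finset.mul_sum, Finset.sum_mul]
    refine Finset.sum_congr rfl fun k _ => ?_
    have h1 := hG1 k
    have h2 := hG2 k
    rw [Matrix.sub_mul, Matrix.smul_mul, Matrix.one_mul] at h1
    rw [Matrix.mul_sub, Matrix.mul_smul, Matrix.mul_one] at h2
    have h3 : A * G k = G k * A := by
      have e1 : A * G k = 1 + μ k • G k := by rw [← h1]; abel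
      have e2 : G k * A = 1 + μ k • G k := by rw [← h2]; abel
      rw [e1, e2]
    rw [Matrix.mul_smul, Matrix.smul_mul, h3]

end Run7.h538.TP
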