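import Mathlib

set_option autoImplicit false

/-!
# Project TP (MP_34deb4_co Q2): `T_{m,n}` is an SSP graph if and only if `m ≤ 2 n + 3`

The start file proves that the condition is sufficient. Here: for `m ≥ 2 n + 4` there is a matrix of `T_{m,n}` without the SSP.
Idea: if a matrix `B` of `T_{m,n}` has `n + 2` double eigenvalues `μ_i` and `A` is `B` with the sign
of one cycle edge changed, then `G_i = (A - μ_i)⁻¹` has zero diagonal on the cycle, `G_i x y =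
1 / (2 A x y)` on the cycle edges, `G_i = (T - μ_i)⁻¹` on the tail `T` and `0` between the cycle vertex
`0` and the tail. So `X = ∑ d_i G_i` with `∑ d_i = 0` and `∑ d_i (T - μ_i)⁻¹ = 0` (`n + 1` linear
conditions for `n + 2` unknowns) shows that `A` does not have the SSP.
`B` is built by inverse spectral theory (Lanczos).
-/

open Finset Matrix

namespace Run7.h538.TP

/-- the symmetric matrices of a graph -/
def InS {V : Type} (G : SimpleGraph V) (A : Matrix V V ℝ) : Prop :=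
  A.IsSymm ∧ ∀ i j, i ≠ j → (A i j ≠ 0 ↔ G.Adj i j)

/-- the strong spectral property -/
def HasSSP {V : Type} [Fintype V] (A : Matrix V V ℝ) : Prop :=
  ∀ X : Matrix V V ℝ, X.IsSymm → (∀ i j, A i j * X i j = 0) → (∀ i, X i i = 0) →
    A * X = X * A → X = 0

/-- SSP graphs -/
def IsSSPGraph {V : Type} [Fintype V] (G : SimpleGraph V) : Prop :=
  ∀ A : Matrix V V ℝ, InS G A → HasSSP A

/-- the tadpole `T_{m,n}` -/
def tadpole (m n : ℕ) : SimpleGraph (Fin m ⊕ Fin n) :=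
  SimpleGraph.fromRel fun x y =>
    match x, y with
    | .inl i, .inl j => (i.val + 1) % m = j.val
    | .inr i, .inr j => i.val + 1 = j.val
    | .inl i, .inr j => i.val = 0 ∧ j.val = 0
    | .inr _, .inl _ => False

/-- Orthonormal rows `f i` in which the diagonal matrix `D` is tridiagonal with nonzero
off-diagonal entries (a Jacobi matrix); the first row is proportional to `x`. -/
structure Lz {k : ℕ} (D x : Fin k → ℝ) (f : Fin k → Fin k → ℝ) : Prop where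
  orth : ∀ i i', ∑ j, f i j * f i' j = if i = i' then 1 else 0
  fst : ∀ i : Fin k, i.val = 0 → ∃ a : ℝ, a ≠ 0 ∧ ∀ j, x j = a * f i j
  tri : ∀ i i', i ≠ i' → ((∑ j, f i j * D j * f i' j ≠ 0) ↔
    (i.val + 1 = i'.val ∨ i'.val + 1 = i.val))

/-- `z j = 1 / (∏_{i ≠ j} (D j - D i) * x j)` -/
noncomputable def zz {k : ℕ} (D x : Fin k → ℝ) (j : Fin k) : ℝ :=
  1 / ((∏ i ∈ univ.erase j, (D j - D i)) * x j)

/-- The matrix `B`: `c_0 = inl 0` has diagonal `a0`, is joined to the cycle vertex `inl (succ i)` with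
the weight `<r, f i>` and to the tail vertex `inr l` with `<s, g l>`; the other blocks are
`<f i, D f j>` and `<g k, ν g l>`. -/
noncomputable def Bm {K n : ℕ} (a0 : ℝ) (D r : Fin K → ℝ) (f : Fin K → Fin K → ℝ)
    (ν s : Fin n → ℝ) (g : Fin n → Fin n → ℝ) :
    Matrix (Fin (K + 1) ⊕ Fin n) (Fin (K + 1) ⊕ Fin n) ℝ :=
  Matrix.fromBlocks
    (Matrix.of fun i j => Fin.cases (Fin.cases a0 (fun j' => ∑ l, r l * f j' l) j)
      (fun i' => Fin.cases (∑ l, r l * f i' l) (fun j' => ∑ l, f i' l * D l * f j' l) j) i)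
    (Matrix.of fun i k => Fin.cases (∑ l, s l * g k l) (fun _ => 0) i)
    (Matrix.of fun k i => Fin.cases (∑ l, s l * g k l) (fun _ => 0) i)
    (Matrix.of fun k k' => ∑ l, g k l * ν l * g k' l)

/-- change the sign of the entries `(x, y)` and `(y, x)` -/
def flip {V : Type} [DecidableEq V] (C : Matrix V V ℝ) (x y : V) : Matrix V V ℝ :=
  Matrix.of fun u v => if (u = x ∧ v = y) ∨ (u = y ∧ v = x) then -C u v else C u v

/-- `μ` is a double eigenvalue -/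
def Dbl {V : Type} [Fintype V] (B : Matrix V V ℝ) (μ : ℝ) : Prop :=
  ∃ u v : V → ℝ, LinearIndependent ℝ ![u, v] ∧ B *ᵥ u = μ • u ∧ B *ᵥ v = μ • v

/-! ## Pieces -/

/-- LZ (100 lines), Lanczos: Gram-Schmidt (`gramSchmidtNormed`, `gramSchmidtOrthonormalBasis`) applied to
`v_i = D^i x` (linearly independent by Vandermonde). `span (f_0..f_i) = span (v_0..v_i)`, so
`D f_i ∈ span (f_0..f_(i+1))`, with a nonzero coefficient at `f_(i+1)` (otherwise `v_(i+1)` would be in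
`span (v_0..v_i)`); symmetry gives the rest. -/
def S_LZ : Prop := ∀ (k : ℕ) (D x : Fin k → ℝ), Function.Injective D → (∀ j, x j ≠ 0) →
  ∃ f : Fin k → Fin k → ℝ, Lz D x f

/-- LAG (40 lines): divided difference of order `k - 1` of `T^t`, `t + 1 < k` (Lagrange
interpolation of `T^t`: its leading coefficient is `0`; `Lagrange.interpolate`, `Lagrange.sum_basis`). -/
def S_LAG : Prop := ∀ (k t : ℕ) (D : Fin k → ℝ), Function.Injective D → t + 1 < k →
  ∑ j, D j ^ t / (∏ i ∈ univ.erase j, (D j - D i)) = 0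

/-- LST (80 lines, uses LAG): the last row. `z = zz D x` is orthogonal to `D^t x`, `t + 1 < k` (LAG); by
`tri` the row `f i` is a combination of the `D^t x`, `t ≤ i`, so `z` is orthogonal to all rows but
the last one; the rows are an orthonormal basis. -/
def S_LST : Prop := ∀ (k : ℕ) (D x : Fin k → ℝ) (f : Fin k → Fin k → ℝ), Function.Injective D →
  (∀ j, x j ≠ 0) → Lz D x f → ∀ i : Fin k, i.val + 1 = k → ∃ c : ℝ, c ≠ 0 ∧ ∀ j, zz D x j = c * f i j

/-- PF (80 lines): partial fractions of `∏_{i ≤ M} (T - 2i) / ∏_{t < M} (T - (2t+1))`. With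
`N = ∏_{i ≤ M} (T - 2i)`, `Q = ∏_{t<M} (T - (2t+1))`, `a0 = ∑ 2i - ∑ (2t+1)`: the polynomial
`R = (T - a0) Q - N` has degree `< M`, so it is its Lagrange interpolation at the zeros `p` of `Q`:
`R / Q = ∑ R(p) / (Q'(p) (T - p))`, `ρ = R(p)/Q'(p) = -N(p)/Q'(p) > 0` (count signs). At `T = 2i`: `N = 0`. -/
def S_PF : Prop := ∀ M : ℕ, ∃ (a0 : ℝ) (ρ : ℕ → ℝ), (∀ t < M, 0 < ρ t) ∧
  ∀ i ≤ M, a0 + ∑ t ∈ range M, ρ t / ((2 * i : ℝ) - (2 * t + 1)) = 2 * i

/-- CON (60 lines). `e j = ∏_{i ≠ j} (j - i)` has the sign `(-1)^(K-1-j)`. Take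
`β = (-1)^K b` with `b > 0` so small that `4 b ≤ γ j |e j|` for all `j`; for even `j`
`x j = √(b / |e j|)` (`β / e j < 0`), for odd `j` (`β / e j = b / |e j| > 0`)
`x j = (√γ_j + √(γ_j - 4 b / |e j|)) / 2`, a root of `x² - √γ_j x + β / e j = 0`. -/
def S_CON : Prop := ∀ (K : ℕ) (γ : Fin K → ℝ), (∀ j, 0 < γ j) →
  ∃ (β : ℝ) (x : Fin K → ℝ), β ≠ 0 ∧ (∀ j, x j ≠ 0) ∧
    (∀ j, Even j.val → x j + β * zz (fun i : Fin K => (i.val : ℝ)) x j = 0) ∧
    (∀ j, ¬ Even j.val → (x j + β * zz (fun i : Fin K => (i.val : ℝ)) x j) ^ 2 = γ j)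

/-- PAT (80 lines): the pattern of `B`. `<r, f i> = a δ_{i,0} + β c δ_{i,K-1}` by orthonormality
(`x = a f_0`, `z = c f_(K-1)`), `K ≥ 2`. -/
def S_PAT : Prop := ∀ (K n : ℕ) (a0 β a c b : ℝ) (D x z r : Fin K → ℝ) (f : Fin K → Fin K → ℝ)
  (ν s : Fin n → ℝ) (g : Fin n → Fin n → ℝ), 2 ≤ K → β ≠ 0 → a ≠ 0 → c ≠ 0 → b ≠ 0 →
  Lz D x f → Lz ν s g → (∀ i : Fin K, i.val = 0 → ∀ j, x j = a * f i j) →
  (∀ i : Fin K, i.val + 1 = K → ∀ j, z j = c * f i j) →
  (∀ i : Fin n, i.val = 0 → ∀ j, s j = b * g i j) → (∀ j, r j = x j + β * z j) →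
  InS (tadpole (K + 1) n) (Bm a0 D r f ν s g)

/-- KER (120 lines): the double eigenvalues. `u`: `0` at `c_0` and on the tail, `u (succ i) = f i q`. `v`: `1` at
`c_0`, `v (succ i) = ∑ l, f i l * h l` with `h l = r l / (μ - D l)` for `l ≠ q`, `h q = 0`,
`v (tail k) = ∑ l, g k l * (s l / (μ - ν l))`. Use the orthonormality of the rows AND of the
columns of `f` and `g` (`Matrix.mul_eq_one_comm`). -/
def S_KER : Prop := ∀ (K n : ℕ) (a0 : ℝ) (D r : Fin K → ℝ) (f : Fin K → Fin K → ℝ)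
  (ν s : Fin n → ℝ) (g : Fin n → Fin n → ℝ) (q : Fin K),
  (∀ i i', ∑ j, f i j * f i' j = if i = i' then 1 else 0) →
  (∀ i i', ∑ j, g i j * g i' j = if i = i' then 1 else 0) →
  Function.Injective D → (∀ l, ν l ≠ D q) → r q = 0 →
  a0 + (∑ l ∈ univ.erase q, r l ^ 2 / (D q - D l)) + ∑ l, s l ^ 2 / (D q - ν l) = D q →
  Dbl (Bm a0 D r f ν s g) (D q) ∧
    ∀ w : Fin n → ℝ, (Bm a0 D r f ν s g).toBlocks₂₂ *ᵥ w = D q • w → w = 0

/-- PROP (60 lines): an eigenvector that vanishes at two adjacent cycle vertices vanishes (rows `c_1, c_2,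
…`, then row `c_0`, then the tail rows). -/
def S_PROP : Prop := ∀ (m n : ℕ) (hm : 3 ≤ m) (C : Matrix (Fin m ⊕ Fin n) (Fin m ⊕ Fin n) ℝ) (μ : ℝ)
  (v : Fin m ⊕ Fin n → ℝ), InS (tadpole m n) C → C *ᵥ v = μ • v →
  v (.inl ⟨0, by omega⟩) = 0 → v (.inl ⟨1, by omega⟩) = 0 → v = 0

/-- SIG (80 lines): sign changes. `A = flip B c_0 c_1`; for every cycle edge `(i, i+1 mod m)` the matrix
`flip A i (i+1)` is `E B E` with `E` diagonal, `-1` on `c_1, …, c_i` and `1` elsewhere (for `i = 0`: `E = 1`,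
`flip` twice is the identity). So it has the same double eigenvalues. -/
def S_SIG : Prop := ∀ (m n : ℕ) (hm : 3 ≤ m) (B : Matrix (Fin m ⊕ Fin n) (Fin m ⊕ Fin n) ℝ) (μ : ℝ),
  InS (tadpole m n) B → Dbl B μ → ∀ i : Fin m,
  Dbl (flip (flip B (.inl ⟨0, by omega⟩) (.inl ⟨1, by omega⟩)) (.inl i)
    (.inl ⟨(i.val + 1) % m, Nat.mod_lt _ (by omega)⟩)) μ

/-- INV (60 lines, uses PROP): `A - μ` is injective. Let `(A - μ) v = 0`. The two
eigenvectors of `B` are determined by their values at `x = c_0`, `y = c_1` (PROP), so there are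
eigenvectors `w` with `(w x, w y) = (0, 1)` and `(1, 0)`;
`0 = <(A - μ) v, w> = <v, (A - μ) w> = 2 A x y (w y v x + w x v y)`; so `v x = v y = 0` and `v = 0` (PROP for
`A`, which is a matrix of the same graph). -/
def S_INV : Prop := ∀ (m n : ℕ) (hm : 3 ≤ m) (B : Matrix (Fin m ⊕ Fin n) (Fin m ⊕ Fin n) ℝ) (μ : ℝ)
  (v : Fin m ⊕ Fin n → ℝ), InS (tadpole m n) B → Dbl B μ →
  flip B (.inl ⟨0, by omega⟩) (.inl ⟨1, by omega⟩) *ᵥ v = μ • v → v = 0

/-- COL (50 lines): columns of the resolvent. If `C = flip A x y` (`x ≠ y`, `A x y ≠ 0`) has the double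
eigenvalue `μ` and `A - μ` is injective, some eigenvector `u ≠ 0` of `C` has `u x = 0`, so
`(A - μ) u = 2 A x y u y e_x`; so `u y ≠ 0`, and `g = u / (2 A x y u y)` is as wanted. -/
def S_COL : Prop := ∀ (V : Type) [Fintype V] [DecidableEq V] (A : Matrix V V ℝ) (μ : ℝ) (x y : V),
  A.IsSymm → x ≠ y → A x y ≠ 0 → (∀ v, A *ᵥ v = μ • v → v = 0) → Dbl (flip A x y) μ →
  ∃ g : V → ℝ, g ≠ 0 ∧ A *ᵥ g = μ • g + Pi.single x 1 ∧ g x = 0 ∧ 2 * A x y * g y = 1 ∧
    (flip A x y) *ᵥ g = μ • g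

/-- DD (60 lines): `n + 1` linear conditions (the spectral theorem for `T`: the second condition is
`∑ d_i / (ν_k - μ_i) = 0` for the eigenvalues `ν_k` of `T`). `R i` is the inverse of `T - μ_i`. -/
def S_DD : Prop := ∀ (n : ℕ) (T : Matrix (Fin n) (Fin n) ℝ) (μ : Fin (n + 2) → ℝ)
  (R : Fin (n + 2) → Matrix (Fin n) (Fin n) ℝ), T.IsSymm → (∀ i, (T - μ i • 1) * R i = 1) →
  ∃ d : Fin (n + 2) → ℝ, d ≠ 0 ∧ ∑ i, d i = 0 ∧ ∑ i, d i • R i = 0

/-- EXB (assembly of the existence; from LZ, LST, PF, CON, PAT, KER). `K = m - 1 ≥ 2 n + 3`,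
`M = n + K / 2`; `D j = j` for `j < K`; the odd `j < K` are poles with `γ_j = ρ ((j-1)/2)`, the other `n` poles
(odd numbers `≥ K`) are `ν`, `s_k = √ρ`; `μ_i = 2 i`, `i < n + 2`. -/
def S_EXB : Prop := ∀ m n : ℕ, 1 ≤ n → 2 * n + 4 ≤ m →
  ∃ (B : Matrix (Fin m ⊕ Fin n) (Fin m ⊕ Fin n) ℝ) (μ : Fin (n + 2) → ℝ),
    InS (tadpole m n) B ∧ Function.Injective μ ∧ (∀ i, Dbl B (μ i)) ∧
    ∀ i, ∀ w : Fin n → ℝ, B.toBlocks₂₂ *ᵥ w = μ i • w → w = 0

/-- END (assembly, from EXB, SIG, INV, COL, DD): `X = ∑ d_i (A - μ_i)⁻¹`; `X ≠ 0` because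
the columns at `c_0` are eigenvectors of `B` for different eigenvalues. -/
def S_END : Prop := ∀ m n : ℕ, 1 ≤ n → 2 * n + 4 ≤ m → ¬ IsSSPGraph (tadpole m n)

end Run7.h538.TP
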